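import Pool.Agent.T9h71.MB.Lin

/-!
# Lower bounds for the number of bits from a pseudo-expectation
-/

set_option autoImplicit false
set_option linter.unusedSectionVars false

open MvPolynomial Pool.Agent.T9h19.MB

namespace Pool.Agent.T9h71.MB

variable {V : Type} [Fintype V] [DecidableEq V]

/-- The regularized square. -/
noncomputable def N (e : Finset (V × Bool) → ℝ) (η : ℝ) (p : Pol V) : ℝ :=
  E e (p * p) + η * ∑ S, L p S ^ 2

variable {G : Finset (Cl V)} {good : Finset (V × Bool) → Prop} {η : ℝ}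

theorem N_nonneg (P : PE G good η) {p : Pol V} (h : Good good p) : 0 ≤ N P.e η p := by
  unfold N
  rw [E_mul]
  exact P.psd (L p) (good_L h)

theorem E_Cmul (e : Finset (V × Bool) → ℝ) (a : ℚ) (p : Pol V) : E e (C a * p) = a * E e p := by
  rw [C_mul', map_smul, Rat.smul_def]

theorem L_Cmul (a : ℚ) (p : Pol V) (S : Finset (V × Bool)) : L (C a * p) S = a * L p S := by
  rw [C_mul', map_smul, Pi.smul_apply, Rat.smul_def]

theorem Good.Cmul {p : Pol V} (h : Good good p) (a : ℚ) : Good good (C a * p) := by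
  intro m hm
  refine h m ?_
  rw [mem_support_iff] at hm ⊢
  rw [coeff_C_mul] at hm
  exact right_ne_zero_of_mul hm

theorem Good.sub {p q : Pol V} (h : Good good p) (h' : Good good q) : Good good (p - q) := by
  intro m hm
  rw [mem_support_iff, coeff_sub] at hm
  by_cases h1 : coeff m p = 0
  · by_cases h2 : coeff m q = 0
    · rw [h1, h2] at hm; simp at hm
    · exact h' m (mem_support_iff.2 h2)
  · exact h m (mem_support_iff.2 h1)

theorem N_smul (e : Finset (V × Bool) → ℝ) (a : ℚ) (p : Pol V) :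
    N e η (C a * p) = (a : ℝ) ^ 2 * N e η p := by
  unfold N
  have h1 : C a * p * (C a * p) = C a * (C a * (p * p)) := by ring
  rw [h1, E_Cmul, E_Cmul]
  simp only [L_Cmul, mul_pow]
  rw [← Finset.mul_sum]
  ring

theorem N_comb (P : PE G good η) (a b : ℚ) {p q : Pol V} (h : Good good p) (h' : Good good q) :
    N P.e η (C a * p + C b * q) ≤ 2 * (a : ℝ) ^ 2 * N P.e η p + 2 * (b : ℝ) ^ 2 * N P.e η q := by
  have h0 := N_nonneg P ((h.Cmul a).sub (h'.Cmul b))
  have e1 : N P.e η (C a * p + C b * q) + N P.e η (C a * p - C b * q) =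
      2 * N P.e η (C a * p) + 2 * N P.e η (C b * q) := by
    unfold N
    have h1 : E P.e ((C a * p + C b * q) * (C a * p + C b * q)) +
        E P.e ((C a * p - C b * q) * (C a * p - C b * q)) =
        2 * E P.e (C a * p * (C a * p)) + 2 * E P.e (C b * q * (C b * q)) := by
      rw [← map_add]
      have : (C a * p + C b * q) * (C a * p + C b * q) + (C a * p - C b * q) * (C a * p - C b * q)
          = C a * p * (C a * p) + C a * p * (C a * p) + (C b * q * (C b * q) + C b * q * (C b * q)) := by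
        ring
      rw [this, map_add, map_add, map_add]
      ring
    have h2 : ∑ S, L (C a * p + C b * q) S ^ 2 + ∑ S, L (C a * p - C b * q) S ^ 2 =
        2 * ∑ S, L (C a * p) S ^ 2 + 2 * ∑ S, L (C b * q) S ^ 2 := by
      rw [← Finset.sum_add_distrib, Finset.mul_sum, Finset.mul_sum, ← Finset.sum_add_distrib]
      refine Finset.sum_congr rfl fun S _ => ?_
      rw [map_add, map_sub, Pi.add_apply, Pi.sub_apply]
      ring
    linear_combination h1 + η * h2
  rw [N_smul, N_smul] at e1
  linarith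

theorem X_eq (x : V × Bool) : (X x : Pol V) = monomial (Finsupp.single x 1) 1 := rfl

theorem E_XX (e : Finset (V × Bool) → ℝ) (x : V × Bool) (r : Pol V) :
    E e (X x * (X x * r)) = E e (X x * r) := by
  conv_lhs => rw [r.as_sum, Finset.mul_sum, Finset.mul_sum, map_sum]
  conv_rhs => rw [r.as_sum, Finset.mul_sum, map_sum]
  refine Finset.sum_congr rfl fun m _ => ?_
  rw [X_eq, monomial_mul, monomial_mul, E_monomial, E_monomial]
  congr 1
  · push_cast; ring
  · congr 1
    rw [supp_add, supp_add, ← Finset.union_assoc, Finset.union_self]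

theorem N_X (P : PE G good η) (hη : 0 < η) (x : V × Bool) {p : Pol V} (h : Good good p)
    (h' : Good good (X x * p)) :
    N P.e η (X x * p) ≤ N P.e η p + η * (3 * ∑ S, L (X x * p) S ^ 2 + ∑ S, L p S ^ 2) := by
  have h0 := N_nonneg P (h'.sub h)
  have e1 : E P.e (X x * p * (X x * p)) = E P.e (X x * (p * p)) := by
    rw [show X x * p * (X x * p) = X x * (X x * (p * p)) by ring, E_XX]
  have e2 : E P.e ((X x * p - p) * (X x * p - p)) =
      E P.e (p * p) - E P.e (X x * (p * p)) := by
    rw [show (X x * p - p) * (X x * p - p) =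
      X x * p * (X x * p) - X x * (p * p) - X x * (p * p) + p * p by ring, map_add, map_sub,
      map_sub, e1]
    ring
  have e3 : ∑ S, L (X x * p - p) S ^ 2 ≤ 2 * ∑ S, L (X x * p) S ^ 2 + 2 * ∑ S, L p S ^ 2 := by
    rw [Finset.mul_sum, Finset.mul_sum, ← Finset.sum_add_distrib]
    refine Finset.sum_le_sum fun S _ => ?_
    rw [map_sub, Pi.sub_apply]
    nlinarith [sq_nonneg (L (X x * p) S + L p S)]
  unfold N at h0 ⊢
  rw [e2] at h0
  rw [e1]
  have e4 := mul_le_mul_of_nonneg_left e3 hη.le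
  linarith

/-! ### axioms -/

theorem tr_eq (C : Cl V) : ∃ m : V × Bool →₀ ℕ, tr C = monomial m 1 ∧ m.support = neg C := by
  unfold tr neg
  induction C using Finset.induction_on with
  | empty => exact ⟨0, by simp, by simp⟩
  | insert l s hl ih =>
    obtain ⟨m, h1, h2⟩ := ih
    refine ⟨Finsupp.single (l.1, !l.2) 1 + m, ?_, ?_⟩
    · rw [Finset.prod_insert hl, h1, X_eq, monomial_mul, one_mul]
    · rw [supp_add, Finset.image_insert, h2, Finsupp.support_single_ne_zero _ one_ne_zero]
      rfl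

theorem E_tr (P : PE G good η) {C : Cl V} (hC : C ∈ G) {p : Pol V} (hp : Good good p) :
    |E P.e (p * tr C)| ≤ η * N1 p := by
  obtain ⟨m, h1, h2⟩ := tr_eq C
  rw [h1]
  have h3 : E P.e (p * monomial m 1) =
      ∑ m' ∈ p.support, ((coeff m' p : ℚ) : ℝ) * P.e (m'.support ∪ neg C) := by
    conv_lhs => rw [p.as_sum, Finset.sum_mul, map_sum]
    refine Finset.sum_congr rfl fun m' _ => ?_
    rw [monomial_mul, E_monomial, mul_one, supp_add, h2]
  rw [h3]
  refine (Finset.abs_sum_le_sum_abs _ _).trans ?_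
  unfold N1
  rw [Finset.mul_sum]
  refine Finset.sum_le_sum fun m' hm' => ?_
  rw [abs_mul, mul_comm]
  exact mul_le_mul_of_nonneg_right (P.ax C hC _ (hp m' hm')) (abs_nonneg _)

theorem L_axB (v : V) (S : Finset (V × Bool)) : L (axB v) S = 0 := by
  unfold axB
  rw [X_pow_eq_monomial, X_eq, map_sub, Pi.sub_apply, L_monomial, L_monomial,
    Finsupp.support_single_ne_zero _ two_ne_zero, Finsupp.support_single_ne_zero _ one_ne_zero,
    sub_self]

theorem E_axB (e : Finset (V × Bool) → ℝ) (v : V) (q : Pol V) : E e (q * axB v) = 0 := by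
  rw [E_mul]
  simp [L_axB]

theorem E_axT (P : PE G good η) (v : V) (q : Pol V) : E P.e (q * axT v) = 0 := by
  conv_lhs => rw [q.as_sum, Finset.sum_mul, map_sum]
  refine Finset.sum_eq_zero fun m _ => ?_
  unfold axT
  have h1 : monomial m (coeff m q) * (X (v, true) + X (v, false) - 1 : Pol V) =
      monomial (Finsupp.single (v, true) 1 + m) (coeff m q) +
      monomial (Finsupp.single (v, false) 1 + m) (coeff m q) - monomial m (coeff m q) := by
    rw [mul_sub, mul_add, mul_one, X_eq, X_eq, monomial_mul, monomial_mul, mul_one,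
      add_comm m, add_comm m]
  rw [h1, map_sub, map_add, E_monomial, E_monomial, E_monomial, supp_add, supp_add,
    Finsupp.support_single_ne_zero _ one_ne_zero, Finsupp.support_single_ne_zero _ one_ne_zero,
    ← P.compl m.support v, Finset.insert_eq, Finset.insert_eq]
  ring

theorem E_one (P : PE G good η) : E P.e 1 = 1 := by
  have h : (1 : Pol V) = monomial 0 1 := rfl
  rw [h, E_monomial]
  simp [P.one]

/-! ### SOS -/

/-- A pseudo-expectation gives a lower bound for the number of bits of SOS refutations. -/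
theorem sos_lower {G : Finset (Cl V)} {good : Finset (V × Bool) → Prop} {η : ℝ} (hη0 : 0 < η)
    (P : PE G good η) (π : SOS G)
    (hr : ∀ k, ∀ m ∈ (π.r k).support, good m.support)
    (ht : ∀ C ∈ G, ∀ m ∈ (π.t C).support, good m.support) :
    1 ≤ η * 2 ^ (100 * π.bits ^ 2) := by
  have h1 := congrArg (E P.e) π.eq
  rw [map_neg, E_one, map_add, map_add, map_sum, map_sum, map_sum] at h1
  have h2 : ∑ v, E P.e (π.u v * axB v + π.w v * axT v) = 0 :=
    Finset.sum_eq_zero fun v _ => by rw [map_add, E_axB, E_axT, add_zero]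
  have h3 : -(η * ∑ k, N1 (π.r k) ^ 2) ≤ ∑ k, E P.e (π.r k ^ 2) := by
    rw [Finset.mul_sum, ← Finset.sum_neg_distrib]
    refine Finset.sum_le_sum fun k _ => ?_
    have h4 := N_nonneg P (hr k)
    unfold N at h4
    have h5 := mul_le_mul_of_nonneg_left (sq_L_sum (π.r k)) hη0.le
    rw [sq (π.r k)]
    linarith
  have h4 : -(η * ∑ C ∈ G, N1 (π.t C)) ≤ ∑ C ∈ G, E P.e (π.t C * tr C) := by
    rw [Finset.mul_sum, ← Finset.sum_neg_distrib]
    refine Finset.sum_le_sum fun C hC => ?_
    exact (abs_le.1 (E_tr P hC (ht C hC))).1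
  set B := π.bits with hB
  have hb1 : ∑ k, N1 (π.r k) ≤ 2 ^ B - 1 := by
    refine ((Finset.sum_le_sum fun k _ => N1_le (π.r k)).trans (sum_two_pow _ _)).trans ?_
    have : ∑ k, pbits (π.r k) ≤ B := by
      rw [hB, SOS.bits]; omega
    have h6 := pow_le_pow_right₀ (one_le_two : (1 : ℝ) ≤ 2) this
    linarith
  have hb2 : ∑ C ∈ G, N1 (π.t C) ≤ 2 ^ B - 1 := by
    refine ((Finset.sum_le_sum fun C _ => N1_le (π.t C)).trans (sum_two_pow _ _)).trans ?_
    have : ∑ C ∈ G, pbits (π.t C) ≤ B := by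
      rw [hB, SOS.bits]; omega
    have h6 := pow_le_pow_right₀ (one_le_two : (1 : ℝ) ≤ 2) this
    linarith
  have hb3 : ∑ k, N1 (π.r k) ^ 2 ≤ (2 ^ B - 1) ^ 2 := by
    have h7 : ∑ k, N1 (π.r k) ^ 2 ≤ (∑ k, N1 (π.r k)) ^ 2 := by
      have h8 : ∀ k, N1 (π.r k) ^ 2 ≤ N1 (π.r k) * ∑ k', N1 (π.r k') := fun k => by
        rw [sq]
        exact mul_le_mul_of_nonneg_left (Finset.single_le_sum (f := fun k' => N1 (π.r k'))
          (fun k' _ => N1_nonneg _) (Finset.mem_univ k)) (N1_nonneg _)
      refine (Finset.sum_le_sum fun k _ => h8 k).trans ?_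
      rw [← Finset.sum_mul, sq]
    exact h7.trans (pow_le_pow_left₀ (Finset.sum_nonneg fun k _ => N1_nonneg _) hb1 2)
  have h9 : 1 ≤ η * ((2 ^ B - 1) ^ 2 + (2 ^ B - 1)) := by
    have := mul_le_mul_of_nonneg_left (add_le_add hb3 hb2) hη0.le
    rw [h2] at h1
    linarith
  have h10 : (1 : ℝ) ≤ 2 ^ B := one_le_pow₀ one_le_two
  have h11 : ((2 : ℝ) ^ B - 1) ^ 2 + (2 ^ B - 1) ≤ 2 ^ (100 * B ^ 2) := by
    have h12 : (2 : ℝ) ^ B * 2 ^ B ≤ 2 ^ (100 * B ^ 2) := by
      rw [← pow_add]
      refine pow_le_pow_right₀ one_le_two ?_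
      nlinarith [Nat.zero_le B, sq_nonneg (B : ℤ), Nat.le_self_pow (two_ne_zero) B]
    nlinarith
  exact h9.trans (mul_le_mul_of_nonneg_left h11 hη0.le)

end Pool.Agent.T9h71.MB
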