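import Pool.Agent.T9h71.MB.Lower

/-!
# PCR: lower bound for the number of bits from a pseudo-expectation
-/

set_option autoImplicit false
set_option linter.unusedSectionVars false
set_option linter.unusedVariables false

open MvPolynomial Pool.Agent.T9h19.MB

namespace Pool.Agent.T9h71.MB

variable {V : Type} [Fintype V] [DecidableEq V]

/-- All coefficients are small and have small denominators. -/
def Sm (M : ℝ) (p : Pol V) : Prop :=
  ∀ m, |((coeff m p : ℚ) : ℝ)| ≤ M ∧ (((coeff m p).den : ℕ) : ℝ) ≤ M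

theorem Sm.of_bits {p : Pol V} {B : ℕ} (h : pbits p ≤ B) : Sm (2 ^ B : ℝ) p := by
  intro m
  by_cases h1 : coeff m p = 0
  · rw [h1]
    have : (1 : ℝ) ≤ 2 ^ B := one_le_pow₀ one_le_two
    refine ⟨?_, ?_⟩
    · simp
    · simpa using this
  · have h2 : cbits (coeff m p) ≤ B := by
      refine le_trans ?_ h
      exact Finset.single_le_sum (f := fun m => cbits (coeff m p)) (fun _ _ => Nat.zero_le _)
        (mem_support_iff.2 h1)
    have h3 : (2 : ℝ) ^ cbits (coeff m p) ≤ 2 ^ B := pow_le_pow_right₀ one_le_two h2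
    exact ⟨by linarith [abs_le_cbits (coeff m p)], (den_le_cbits _).trans h3⟩

/-- A nonzero number with a small denominator is not small. -/
theorem inv_le {x : ℚ} (hx : x ≠ 0) {M : ℝ} (h : (x.den : ℝ) ≤ M) : 1 ≤ |(x : ℝ)| * M := by
  have h1 : |(x : ℝ)| * x.den = |(x.num : ℝ)| := by
    have h2 : (x : ℝ) * x.den = x.num := by exact_mod_cast Rat.mul_den_eq_num x
    rw [← h2, abs_mul, abs_of_nonneg (a := (x.den : ℝ)) (Nat.cast_nonneg _)]
  have h2 : (1 : ℝ) ≤ |(x.num : ℝ)| := by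
    have := Int.one_le_abs (Rat.num_ne_zero.2 hx)
    exact_mod_cast this
  calc (1 : ℝ) ≤ |(x : ℝ)| * x.den := by rw [h1]; exact h2
    _ ≤ |(x : ℝ)| * M := mul_le_mul_of_nonneg_left h (abs_nonneg _)

theorem det_le {x y z w : ℚ} (hD : x * y - z * w ≠ 0) {M : ℝ} (hx : (x.den : ℝ) ≤ M)
    (hy : (y.den : ℝ) ≤ M) (hz : (z.den : ℝ) ≤ M) (hw : (w.den : ℝ) ≤ M) :
    1 ≤ |(x : ℝ) * y - z * w| * M ^ 4 := by
  have h0 : (0 : ℝ) ≤ M := (Nat.cast_nonneg _).trans hx
  have e : ((x : ℝ) * y - z * w) * (x.den * y.den * (z.den * w.den)) =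
      ((x.num * y.num * (z.den * w.den) - z.num * w.num * (x.den * y.den) : ℤ) : ℝ) := by
    have h1 : (x : ℝ) * x.den = x.num := by exact_mod_cast Rat.mul_den_eq_num x
    have h2 : (y : ℝ) * y.den = y.num := by exact_mod_cast Rat.mul_den_eq_num y
    have h3 : (z : ℝ) * z.den = z.num := by exact_mod_cast Rat.mul_den_eq_num z
    have h4 : (w : ℝ) * w.den = w.num := by exact_mod_cast Rat.mul_den_eq_num w
    push_cast
    rw [← h1, ← h2, ← h3, ← h4]
    ring
  have hd : ∀ q : ℚ, (0 : ℝ) < q.den := fun q => by exact_mod_cast q.den_pos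
  have h5 : (1 : ℝ) ≤ |(x : ℝ) * y - z * w| * (x.den * y.den * (z.den * w.den)) := by
    have h6 : |((x : ℝ) * y - z * w) * (x.den * y.den * (z.den * w.den))| =
        |(x : ℝ) * y - z * w| * (x.den * y.den * (z.den * w.den)) := by
      rw [abs_mul, abs_of_pos (a := ((x.den : ℝ) * y.den * (z.den * w.den)))]
      exact mul_pos (mul_pos (hd x) (hd y)) (mul_pos (hd z) (hd w))
    rw [← h6, e]
    have h7 : (x.num * y.num * (z.den * w.den) - z.num * w.num * (x.den * y.den) : ℤ) ≠ 0 := by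
      intro h8
      rw [h8, Int.cast_zero, mul_eq_zero] at e
      rcases e with e | e
      · exact hD (by exact_mod_cast e)
      · exact absurd e (mul_pos (mul_pos (hd x) (hd y)) (mul_pos (hd z) (hd w))).ne'
    have := Int.one_le_abs h7
    exact_mod_cast this
  refine h5.trans (mul_le_mul_of_nonneg_left ?_ (abs_nonneg _))
  calc (x.den : ℝ) * y.den * (z.den * w.den) ≤ M * M * (M * M) :=
        mul_le_mul (mul_le_mul hx hy (hd y).le h0) (mul_le_mul hz hw (hd w).le h0)
          (mul_pos (hd z) (hd w)).le (mul_nonneg h0 h0)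
    _ = M ^ 4 := by ring

/-- The scalar of a small nonzero multiple of a small polynomial. -/
theorem scal1 {M : ℝ} {p r : Pol V} {a : ℚ} (hp : Sm M p) (hr : Sm M r) (h : r = C a * p)
    (hp0 : p ≠ 0) : |(a : ℝ)| ≤ M ^ 2 := by
  obtain ⟨m, hm⟩ := MvPolynomial.ne_zero_iff.1 hp0
  have h1 : coeff m r = a * coeff m p := by rw [h, coeff_C_mul]
  have h2 : ((coeff m r : ℚ) : ℝ) = a * (coeff m p : ℚ) := by exact_mod_cast h1
  have h3 := inv_le hm (hp m).2
  have h4 := (hr m).1
  have h0 : (0 : ℝ) ≤ M := (abs_nonneg _).trans h4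
  rw [h2, abs_mul] at h4
  calc |(a : ℝ)| = |(a : ℝ)| * 1 := (mul_one _).symm
    _ ≤ |(a : ℝ)| * (|((coeff m p : ℚ) : ℝ)| * M) := mul_le_mul_of_nonneg_left h3 (abs_nonneg _)
    _ = |(a : ℝ)| * |((coeff m p : ℚ) : ℝ)| * M := by ring
    _ ≤ M * M := mul_le_mul_of_nonneg_right h4 h0
    _ = M ^ 2 := by ring

theorem scal {M : ℝ} {p q r : Pol V} {a b : ℚ} (hp : Sm M p) (hq : Sm M q) (hr : Sm M r)
    (h : r = C a * p + C b * q) (hr0 : r ≠ 0) :
    (p ≠ 0 ∧ ∃ μ : ℚ, |(μ : ℝ)| ≤ M ^ 2 ∧ r = C μ * p) ∨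
    (q ≠ 0 ∧ ∃ μ : ℚ, |(μ : ℝ)| ≤ M ^ 2 ∧ r = C μ * q) ∨
    (p ≠ 0 ∧ q ≠ 0 ∧ |(a : ℝ)| ≤ 2 * M ^ 6 ∧ |(b : ℝ)| ≤ 2 * M ^ 6) := by
  by_cases hp0 : p = 0
  · have hq0 : q ≠ 0 := by
      rintro rfl
      exact hr0 (by rw [h, hp0, mul_zero, mul_zero, add_zero])
    rw [hp0, mul_zero, zero_add] at h
    exact Or.inr (Or.inl ⟨hq0, b, scal1 hq hr h hq0, h⟩)
  by_cases hq0 : q = 0
  · rw [hq0, mul_zero, add_zero] at h
    exact Or.inl ⟨hp0, a, scal1 hp hr h hp0, h⟩
  by_cases hD : ∀ m m', coeff m p * coeff m' q - coeff m' p * coeff m q = 0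
  · obtain ⟨m, hm⟩ := MvPolynomial.ne_zero_iff.1 hp0
    have h1 : q = C (coeff m q / coeff m p) * p := by
      ext m'
      rw [coeff_C_mul]
      have := hD m m'
      field_simp
      linarith
    have h2 : r = C (a + b * (coeff m q / coeff m p)) * p := by
      rw [h]
      conv_lhs => rw [h1]
      rw [C_add, C_mul]
      ring
    exact Or.inl ⟨hp0, _, scal1 hp hr h2 hp0, h2⟩
  · push Not at hD
    obtain ⟨m, m', hD⟩ := hD
    refine Or.inr (Or.inr ⟨hp0, hq0, ?_⟩)
    have h1 : ((coeff m r : ℚ) : ℝ) = a * (coeff m p : ℚ) + b * (coeff m q : ℚ) := by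
      have : coeff m r = a * coeff m p + b * coeff m q := by
        rw [h, coeff_add, coeff_C_mul, coeff_C_mul]
      exact_mod_cast this
    have h2 : ((coeff m' r : ℚ) : ℝ) = a * (coeff m' p : ℚ) + b * (coeff m' q : ℚ) := by
      have : coeff m' r = a * coeff m' p + b * coeff m' q := by
        rw [h, coeff_add, coeff_C_mul, coeff_C_mul]
      exact_mod_cast this
    have h3 := det_le hD (hp m).2 (hq m').2 (hp m').2 (hq m).2
    have g1 := (hp m).1
    have g2 := (hp m').1
    have g3 := (hq m).1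
    have g4 := (hq m').1
    have g5 := (hr m).1
    have g6 := (hr m').1
    set x := ((coeff m p : ℚ) : ℝ)
    set y := ((coeff m' q : ℚ) : ℝ)
    set z := ((coeff m' p : ℚ) : ℝ)
    set w := ((coeff m q : ℚ) : ℝ)
    set u := ((coeff m r : ℚ) : ℝ)
    set v := ((coeff m' r : ℚ) : ℝ)
    have h0 : (0 : ℝ) ≤ M := (abs_nonneg _).trans g1
    have k1 : |(a : ℝ)| * |x * y - z * w| ≤ 2 * M ^ 2 := by
      rw [← abs_mul]
      have e1 : (a : ℝ) * (x * y - z * w) = u * y - v * w := by rw [h1, h2]; ring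
      rw [e1]
      calc |u * y - v * w| ≤ |u * y| + |v * w| := abs_sub _ _
        _ = |u| * |y| + |v| * |w| := by rw [abs_mul, abs_mul]
        _ ≤ M * M + M * M := add_le_add (mul_le_mul g5 g4 (abs_nonneg _) h0)
            (mul_le_mul g6 g3 (abs_nonneg _) h0)
        _ = 2 * M ^ 2 := by ring
    have k2 : |(b : ℝ)| * |x * y - z * w| ≤ 2 * M ^ 2 := by
      rw [← abs_mul]
      have e1 : (b : ℝ) * (x * y - z * w) = x * v - z * u := by rw [h1, h2]; ring
      rw [e1]
      calc |x * v - z * u| ≤ |x * v| + |z * u| := abs_sub _ _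
        _ = |x| * |v| + |z| * |u| := by rw [abs_mul, abs_mul]
        _ ≤ M * M + M * M := add_le_add (mul_le_mul g1 g6 (abs_nonneg _) h0)
            (mul_le_mul g2 g5 (abs_nonneg _) h0)
        _ = 2 * M ^ 2 := by ring
    have h4 : (0 : ℝ) ≤ M ^ 4 := by positivity
    constructor
    · calc |(a : ℝ)| = |(a : ℝ)| * 1 := (mul_one _).symm
        _ ≤ |(a : ℝ)| * (|x * y - z * w| * M ^ 4) := mul_le_mul_of_nonneg_left h3 (abs_nonneg _)
        _ = |(a : ℝ)| * |x * y - z * w| * M ^ 4 := by ring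
        _ ≤ 2 * M ^ 2 * M ^ 4 := mul_le_mul_of_nonneg_right k1 h4
        _ = 2 * M ^ 6 := by ring
    · calc |(b : ℝ)| = |(b : ℝ)| * 1 := (mul_one _).symm
        _ ≤ |(b : ℝ)| * (|x * y - z * w| * M ^ 4) := mul_le_mul_of_nonneg_left h3 (abs_nonneg _)
        _ = |(b : ℝ)| * |x * y - z * w| * M ^ 4 := by ring
        _ ≤ 2 * M ^ 2 * M ^ 4 := mul_le_mul_of_nonneg_right k2 h4
        _ = 2 * M ^ 6 := by ring

/-- The number of nonzero lines before line `i`. -/
noncomputable def nz (p : ℕ → Pol V) (i : ℕ) : ℕ :=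
  (open Classical in (Finset.range i).filter fun j => p j ≠ 0).card

theorem nz_lt {p : ℕ → Pol V} {i j : ℕ} (h : j < i) (hj : p j ≠ 0) : nz p j + 1 ≤ nz p i := by
  classical
  unfold nz
  have h1 : insert j ((Finset.range j).filter fun j => p j ≠ 0) ⊆
      (Finset.range i).filter fun j => p j ≠ 0 := by
    intro x hx
    rw [Finset.mem_insert, Finset.mem_filter, Finset.mem_range] at hx
    rw [Finset.mem_filter, Finset.mem_range]
    rcases hx with rfl | hx
    · exact ⟨h, hj⟩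
    · exact ⟨hx.1.trans h, hx.2⟩
  have h2 := Finset.card_le_card h1
  rw [Finset.card_insert_of_notMem (by simp)] at h2
  convert h2

theorem nz_le (p : ℕ → Pol V) (i : ℕ) : nz p i ≤ ∑ j ∈ Finset.range i, pbits (p j) := by
  classical
  unfold nz
  rw [Finset.card_eq_sum_ones]
  refine (Finset.sum_le_sum (f := fun _ => 1) (g := fun j => pbits (p j)) ?_).trans
    (Finset.sum_le_sum_of_subset (Finset.filter_subset _ _))
  intro j hj
  have hj' := (Finset.mem_filter.1 hj).2
  obtain ⟨m, hm⟩ := MvPolynomial.ne_zero_iff.1 hj'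
  have h1 : cbits (coeff m (p j)) ≤ pbits (p j) :=
    Finset.single_le_sum (f := fun m => cbits (coeff m (p j))) (fun _ _ => Nat.zero_le _)
      (mem_support_iff.2 hm)
  have h2 := two_le_cbits hm
  show 1 ≤ pbits (p j)
  omega

/-- A pseudo-expectation gives a lower bound for the number of bits of PCR refutations. -/
theorem pcr_lower {G : Finset (Cl V)} {good : Finset (V × Bool) → Prop} {η : ℝ} (hη0 : 0 < η)
    (P : PE G good η) (π : PCR G)
    (hg : ∀ i < π.len, ∀ m ∈ (π.p i).support, good m.support)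
    (hg0 : good ∅) (hgC : ∀ C ∈ G, good (neg C)) :
    1 ≤ η * 2 ^ (100 * π.bits ^ 2) := by
  set B := π.bits with hB
  have hbits : ∀ i < π.len, pbits (π.p i) ≤ B := fun i hi =>
    Finset.single_le_sum (f := fun i => pbits (π.p i)) (fun _ _ => Nat.zero_le _)
      (Finset.mem_range.2 hi)
  have hlen := π.pos
  have hB1 : nz π.p π.len ≤ B := nz_le _ _
  have hlast : π.p (π.len - 1) ≠ 0 := by rw [π.last]; exact one_ne_zero
  have hK : nz π.p (π.len - 1) + 1 ≤ B := (nz_lt (by omega) hlast).trans hB1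
  have hB0 : 1 ≤ B := by omega
  set M : ℝ := 2 ^ B with hM
  have hM2 : (2 : ℝ) ≤ M := by
    rw [hM]; calc (2 : ℝ) = 2 ^ 1 := by norm_num
      _ ≤ 2 ^ B := pow_le_pow_right₀ one_le_two hB0
  have hM0 : (0 : ℝ) ≤ M := by linarith
  set A : ℝ := M ^ 20 with hA
  have hMA : ∀ k, k ≤ 20 → M ^ k ≤ A := fun k hk => pow_le_pow_right₀ (by linarith) hk
  have hA1 : 1 ≤ A := by have := hMA 0 (by norm_num); simpa using this
  have h16 : 16 * M ^ 12 ≤ A := by
    have : (16 : ℝ) ≤ M ^ 4 := by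
      calc (16 : ℝ) = 2 ^ 4 := by norm_num
        _ ≤ M ^ 4 := pow_le_pow_left₀ (by norm_num) hM2 4
    calc 16 * M ^ 12 ≤ M ^ 4 * M ^ 12 := mul_le_mul_of_nonneg_right this (by positivity)
      _ = M ^ 16 := by ring
      _ ≤ A := hMA 16 (by norm_num)
  have hN1 : ∀ i < π.len, N1 (π.p i) ≤ M - 1 := fun i hi => by
    have h1 := N1_le (π.p i)
    have h2 : (2 : ℝ) ^ pbits (π.p i) ≤ 2 ^ B := pow_le_pow_right₀ one_le_two (hbits i hi)
    linarith
  have hSQ : ∀ i < π.len, ∑ S, L (π.p i) S ^ 2 ≤ (M - 1) ^ 2 := fun i hi =>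
    (sq_L_sum _).trans (pow_le_pow_left₀ (N1_nonneg _) (hN1 i hi) 2)
  have hSm : ∀ i < π.len, Sm M (π.p i) := fun i hi => Sm.of_bits (hbits i hi)
  have hApow : ∀ {i j : ℕ}, i ≤ j → A ^ i ≤ A ^ j := fun h => pow_le_pow_right₀ hA1 h
  have main : ∀ i, i < π.len → N P.e η (π.p i) ≤ η * A ^ (nz π.p i + 1) := by
    intro i
    induction i using Nat.strong_induction_on with
    | _ i ih =>
      intro hi
      have hη : 0 ≤ η := hη0.le
      by_cases h0 : π.p i = 0
      · rw [h0]
        unfold N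
        rw [mul_zero, map_zero, map_zero]
        simp only [Pi.zero_apply, ne_eq, OfNat.ofNat_ne_zero, not_false_eq_true, zero_pow,
          Finset.sum_const_zero, mul_zero, add_zero]
        positivity
      have hAK : A ≤ A ^ (nz π.p i + 1) := by
        have := hApow (show 1 ≤ nz π.p i + 1 by omega)
        simpa using this
      have hM2A : M ^ 2 ≤ A ^ (nz π.p i + 1) := (hMA 2 (by norm_num)).trans hAK
      rcases π.step i hi with ⟨C', hC, h⟩ | ⟨v, h⟩ | ⟨v, h⟩ | ⟨x, j, hj, h⟩ |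
        ⟨j, hj, k, hk, a, b, h⟩
      · have h1 := (abs_le.1 (E_tr P hC (hg i hi))).2
        have h2 := hSQ i hi
        have h3 := hN1 i hi
        unfold N
        rw [← h] at h1
        have h4 : E P.e (π.p i * π.p i) + η * ∑ S, L (π.p i) S ^ 2 ≤
            η * (M - 1) + η * (M - 1) ^ 2 := by
          refine add_le_add (h1.trans (mul_le_mul_of_nonneg_left h3 hη))
            (mul_le_mul_of_nonneg_left h2 hη)
        have h5 : (M - 1) + (M - 1) ^ 2 ≤ M ^ 2 := by nlinarith
        calc _ ≤ η * (M - 1) + η * (M - 1) ^ 2 := h4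
          _ = η * ((M - 1) + (M - 1) ^ 2) := by ring
          _ ≤ η * A ^ (nz π.p i + 1) := mul_le_mul_of_nonneg_left (h5.trans hM2A) hη
      · have h1 : E P.e (π.p i * π.p i) = 0 := by
          conv_lhs => rw [h]
          exact E_axB _ _ _
        unfold N
        rw [h1, zero_add]
        have h5 : (M - 1) ^ 2 ≤ M ^ 2 := by nlinarith
        exact mul_le_mul_of_nonneg_left ((hSQ i hi).trans (h5.trans hM2A)) hη
      · have h1 : E P.e (π.p i * π.p i) = 0 := by
          conv_lhs => rw [h]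
          exact E_axT P _ _
        unfold N
        rw [h1, zero_add]
        have h5 : (M - 1) ^ 2 ≤ M ^ 2 := by nlinarith
        exact mul_le_mul_of_nonneg_left ((hSQ i hi).trans (h5.trans hM2A)) hη
      · have hj' : j < π.len := hj.trans hi
        have hj0 : π.p j ≠ 0 := by
          intro h1; exact h0 (by rw [h, h1, mul_zero])
        have h1 := N_X P hη0 x (hg j hj') (by rw [← h]; exact hg i hi)
        rw [← h] at h1
        have h2 := ih j hj hj'
        have h3 := hSQ i hi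
        have h4 := hSQ j hj'
        have h5 : nz π.p j + 1 ≤ nz π.p i := nz_lt hj hj0
        have h6 : A ^ (nz π.p j + 1) ≤ A ^ nz π.p i := hApow h5
        have h7 : 3 * ∑ S, L (π.p i) S ^ 2 + ∑ S, L (π.p j) S ^ 2 ≤ 4 * M ^ 2 := by nlinarith
        have h8 : A ^ nz π.p i + 4 * M ^ 2 ≤ A ^ (nz π.p i + 1) := by
          have k1 : 4 * M ^ 2 + 1 ≤ A := by
            have : M ^ 2 ≤ M ^ 12 := pow_le_pow_right₀ (by linarith) (by norm_num)
            have : 1 ≤ M ^ 12 := one_le_pow₀ (by linarith)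
            linarith
          have k2 : 1 ≤ A ^ nz π.p i := one_le_pow₀ hA1
          rw [pow_succ A]
          have k3 : A ^ nz π.p i * (4 * M ^ 2 + 1) ≤ A ^ nz π.p i * A :=
            mul_le_mul_of_nonneg_left k1 (by linarith)
          have k4 : 1 * (4 * M ^ 2) ≤ A ^ nz π.p i * (4 * M ^ 2) :=
            mul_le_mul_of_nonneg_right k2 (by positivity)
          linarith
        calc N P.e η (π.p i) ≤ η * A ^ (nz π.p j + 1) + η * (4 * M ^ 2) := by
              refine h1.trans (add_le_add h2 (mul_le_mul_of_nonneg_left h7 hη))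
          _ ≤ η * A ^ nz π.p i + η * (4 * M ^ 2) := by
              have := mul_le_mul_of_nonneg_left h6 hη
              linarith
          _ = η * (A ^ nz π.p i + 4 * M ^ 2) := by ring
          _ ≤ η * A ^ (nz π.p i + 1) := mul_le_mul_of_nonneg_left h8 hη
      · have hj' : j < π.len := hj.trans hi
        have hk' : k < π.len := hk.trans hi
        have hM4 : (M ^ 2) ^ 2 ≤ A := by
          rw [← pow_mul]; exact hMA 4 (by norm_num)
        have one : ∀ j, j < i → j < π.len → π.p j ≠ 0 → ∀ μ : ℚ, |(μ : ℝ)| ≤ M ^ 2 →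
            π.p i = C μ * π.p j → N P.e η (π.p i) ≤ η * A ^ (nz π.p i + 1) := by
          intro j hj hj' hj0 μ hμ h
          rw [h, N_smul]
          have h2 := ih j hj hj'
          have h6 : A ^ (nz π.p j + 1) ≤ A ^ nz π.p i := hApow (nz_lt hj hj0)
          have h7 : (μ : ℝ) ^ 2 ≤ A := by
            rw [← sq_abs]
            exact (pow_le_pow_left₀ (abs_nonneg _) hμ 2).trans hM4
          have h8 := N_nonneg P (hg j hj')
          calc (μ : ℝ) ^ 2 * N P.e η (π.p j) ≤ A * (η * A ^ (nz π.p j + 1)) :=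
                mul_le_mul h7 h2 h8 (by linarith)
            _ = η * (A * A ^ (nz π.p j + 1)) := by ring
            _ ≤ η * (A * A ^ nz π.p i) := by
                refine mul_le_mul_of_nonneg_left (mul_le_mul_of_nonneg_left h6 (by linarith)) hη
            _ = η * A ^ (nz π.p i + 1) := by rw [pow_succ]; ring
        rcases scal (hSm j hj') (hSm k hk') (hSm i hi) h h0 with ⟨hj0, μ, hμ, h1⟩ |
          ⟨hk0, μ, hμ, h1⟩ | ⟨hj0, hk0, ha, hb⟩
        · exact one j hj hj' hj0 μ hμ h1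
        · exact one k hk hk' hk0 μ hμ h1
        · have h1 := N_comb P a b (hg j hj') (hg k hk')
          rw [← h] at h1
          have h2 := ih j hj hj'
          have h3 := ih k hk hk'
          have h6 : A ^ (nz π.p j + 1) ≤ A ^ nz π.p i := hApow (nz_lt hj hj0)
          have h7 : A ^ (nz π.p k + 1) ≤ A ^ nz π.p i := hApow (nz_lt hk hk0)
          have h8 : (a : ℝ) ^ 2 ≤ 4 * M ^ 12 := by
            rw [← sq_abs]
            calc |(a : ℝ)| ^ 2 ≤ (2 * M ^ 6) ^ 2 := pow_le_pow_left₀ (abs_nonneg _) ha 2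
              _ = 4 * M ^ 12 := by ring
          have h9 : (b : ℝ) ^ 2 ≤ 4 * M ^ 12 := by
            rw [← sq_abs]
            calc |(b : ℝ)| ^ 2 ≤ (2 * M ^ 6) ^ 2 := pow_le_pow_left₀ (abs_nonneg _) hb 2
              _ = 4 * M ^ 12 := by ring
          have g1 : N P.e η (π.p j) ≤ η * A ^ nz π.p i :=
            h2.trans (mul_le_mul_of_nonneg_left h6 hη)
          have g2 : N P.e η (π.p k) ≤ η * A ^ nz π.p i :=
            h3.trans (mul_le_mul_of_nonneg_left h7 hη)
          have g3 := N_nonneg P (hg j hj')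
          have g4 := N_nonneg P (hg k hk')
          have g5 : (a : ℝ) ^ 2 * N P.e η (π.p j) ≤ 4 * M ^ 12 * (η * A ^ nz π.p i) :=
            mul_le_mul h8 g1 g3 (by positivity)
          have g6 : (b : ℝ) ^ 2 * N P.e η (π.p k) ≤ 4 * M ^ 12 * (η * A ^ nz π.p i) :=
            mul_le_mul h9 g2 g4 (by positivity)
          have g7 : 0 ≤ η * A ^ nz π.p i := by positivity
          calc N P.e η (π.p i) ≤ 16 * M ^ 12 * (η * A ^ nz π.p i) := by nlinarith
            _ ≤ A * (η * A ^ nz π.p i) := mul_le_mul_of_nonneg_right h16 g7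
            _ = η * A ^ (nz π.p i + 1) := by rw [pow_succ]; ring
  have h1 := main (π.len - 1) (by omega)
  rw [π.last] at h1
  have h2 : 1 ≤ N P.e η 1 := by
    unfold N
    rw [mul_one, E_one]
    have : 0 ≤ η * ∑ S, L (1 : Pol V) S ^ 2 :=
      mul_nonneg hη0.le (Finset.sum_nonneg fun S _ => sq_nonneg _)
    linarith
  refine (h2.trans h1).trans (mul_le_mul_of_nonneg_left ?_ hη0.le)
  calc A ^ (nz π.p (π.len - 1) + 1) ≤ A ^ B := hApow hK
    _ = 2 ^ (20 * B ^ 2) := by
        rw [hA, hM, ← pow_mul, ← pow_mul]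
        congr 1
        ring
    _ ≤ 2 ^ (100 * B ^ 2) := pow_le_pow_right₀ one_le_two (by nlinarith [Nat.zero_le (B ^ 2)])

end Pool.Agent.T9h71.MB
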