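import Pool.Agent.T9h19.MB.Defs

/-!
# The linear functional of a pseudo-expectation
-/

set_option autoImplicit false
set_option linter.unusedSectionVars false

open MvPolynomial Pool.Agent.T9h19.MB

namespace Pool.Agent.T9h71.MB

variable {V : Type} [Fintype V] [DecidableEq V]

/-- The linear functional with the values `e m.support` on the monomials. -/
noncomputable def E (e : Finset (V × Bool) → ℝ) : Pol V →ₗ[ℚ] ℝ :=
  (basisMonomials (V × Bool) ℚ).constr ℚ fun m => e m.support

/-- The coefficients, grouped by the supports of the monomials. -/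
noncomputable def L : Pol V →ₗ[ℚ] (Finset (V × Bool) → ℝ) :=
  (basisMonomials (V × Bool) ℚ).constr ℚ fun m => Pi.single m.support 1

/-- The sum of the absolute values of the coefficients. -/
noncomputable def N1 (p : Pol V) : ℝ := ∑ m ∈ p.support, |((coeff m p : ℚ) : ℝ)|

theorem E_monomial (e : Finset (V × Bool) → ℝ) (m : V × Bool →₀ ℕ) (a : ℚ) :
    E e (monomial m a) = a * e m.support := by
  have h : monomial m a = a • (basisMonomials (V × Bool) ℚ m) := by
    rw [coe_basisMonomials, smul_monomial, smul_eq_mul, mul_one]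
  rw [h, map_smul, E, Module.Basis.constr_basis, Rat.smul_def]

theorem L_monomial (m : V × Bool →₀ ℕ) (a : ℚ) (S : Finset (V × Bool)) :
    L (monomial m a) S = if m.support = S then (a : ℝ) else 0 := by
  have h : monomial m a = a • (basisMonomials (V × Bool) ℚ m) := by
    rw [coe_basisMonomials, smul_monomial, smul_eq_mul, mul_one]
  rw [h, map_smul, L, Module.Basis.constr_basis, Pi.smul_apply, Rat.smul_def]
  by_cases h1 : m.support = S
  · subst h1; simp
  · rw [if_neg h1, Pi.single_eq_of_ne (Ne.symm h1), mul_zero]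

theorem E_eq (e : Finset (V × Bool) → ℝ) (p : Pol V) :
    E e p = ∑ m ∈ p.support, ((coeff m p : ℚ) : ℝ) * e m.support := by
  conv_lhs => rw [p.as_sum]
  rw [map_sum]
  exact Finset.sum_congr rfl fun m _ => E_monomial e m _

theorem L_eq (p : Pol V) (S : Finset (V × Bool)) :
    L p S = ∑ m ∈ p.support, if m.support = S then ((coeff m p : ℚ) : ℝ) else 0 := by
  conv_lhs => rw [p.as_sum]
  rw [map_sum, Finset.sum_apply]
  exact Finset.sum_congr rfl fun m _ => L_monomial m _ S

theorem sum_L (p : Pol V) (g : Finset (V × Bool) → ℝ) :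
    ∑ S, L p S * g S = ∑ m ∈ p.support, ((coeff m p : ℚ) : ℝ) * g m.support := by
  simp only [L_eq, Finset.sum_mul]
  rw [Finset.sum_comm]
  refine Finset.sum_congr rfl fun m _ => ?_
  simp only [ite_mul, zero_mul]
  rw [Finset.sum_ite_eq]
  simp

theorem supp_add (m m' : V × Bool →₀ ℕ) : (m + m').support = m.support ∪ m'.support := by
  ext x
  simp only [Finsupp.mem_support_iff, Finsupp.add_apply, Finset.mem_union]
  omega

theorem E_mul (e : Finset (V × Bool) → ℝ) (p q : Pol V) :
    E e (p * q) = ∑ S, ∑ S', L p S * L q S' * e (S ∪ S') := by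
  have h1 : ∑ S, ∑ S', L p S * L q S' * e (S ∪ S') =
      ∑ m ∈ p.support, ((coeff m p : ℚ) : ℝ) * ∑ m' ∈ q.support,
        ((coeff m' q : ℚ) : ℝ) * e (m.support ∪ m'.support) := by
    rw [← sum_L p fun S => ∑ m' ∈ q.support, ((coeff m' q : ℚ) : ℝ) * e (S ∪ m'.support)]
    refine Finset.sum_congr rfl fun S _ => ?_
    rw [← sum_L q fun S' => e (S ∪ S'), Finset.mul_sum]
    exact Finset.sum_congr rfl fun S' _ => by ring
  rw [h1]
  conv_lhs => rw [p.as_sum, q.as_sum, Finset.sum_mul_sum]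
  rw [map_sum]
  refine Finset.sum_congr rfl fun m _ => ?_
  rw [map_sum, Finset.mul_sum]
  refine Finset.sum_congr rfl fun m' _ => ?_
  rw [monomial_mul, E_monomial, supp_add]
  push_cast
  ring

theorem abs_L_sum (p : Pol V) : ∑ S, |L p S| ≤ N1 p := by
  have h1 : ∀ S, |L p S| ≤ ∑ m ∈ p.support, if m.support = S then |((coeff m p : ℚ) : ℝ)| else 0 := by
    intro S
    rw [L_eq]
    refine (Finset.abs_sum_le_sum_abs _ _).trans (Finset.sum_le_sum fun m _ => ?_)
    split_ifs <;> simp
  refine (Finset.sum_le_sum fun S _ => h1 S).trans ?_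
  rw [Finset.sum_comm]
  refine Finset.sum_le_sum fun m _ => ?_
  rw [Finset.sum_ite_eq]
  simp

theorem N1_nonneg (p : Pol V) : 0 ≤ N1 p := Finset.sum_nonneg fun _ _ => abs_nonneg _

theorem sq_L_sum (p : Pol V) : ∑ S, L p S ^ 2 ≤ N1 p ^ 2 := by
  have h1 : ∑ S, L p S ^ 2 ≤ (∑ S, |L p S|) ^ 2 := by
    have : ∀ S, L p S ^ 2 ≤ |L p S| * ∑ S', |L p S'| := fun S => by
      rw [← sq_abs, sq]
      exact mul_le_mul_of_nonneg_left (Finset.single_le_sum (f := fun S' => |L p S'|)
        (fun S' _ => abs_nonneg _) (Finset.mem_univ S)) (abs_nonneg _)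
    refine (Finset.sum_le_sum fun S _ => this S).trans ?_
    rw [← Finset.sum_mul, sq]
  refine h1.trans (pow_le_pow_left₀ (Finset.sum_nonneg fun _ _ => abs_nonneg _) (abs_L_sum p) 2)

/-- All monomials of the polynomial are good. -/
def Good (good : Finset (V × Bool) → Prop) (p : Pol V) : Prop := ∀ m ∈ p.support, good m.support

theorem good_L {good : Finset (V × Bool) → Prop} {p : Pol V} (h : Good good p)
    (S : Finset (V × Bool)) (hS : L p S ≠ 0) : good S := by
  rw [L_eq] at hS
  obtain ⟨m, hm, h1⟩ := Finset.exists_ne_zero_of_sum_ne_zero hS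
  by_cases h2 : m.support = S
  · rw [← h2]; exact h m hm
  · rw [if_neg h2] at h1; exact absurd rfl h1

/-! ### bits -/

theorem abs_le_cbits (q : ℚ) : |(q : ℝ)| ≤ 2 ^ cbits q - 1 := by
  have h1 : |(q : ℝ)| ≤ (q.num.natAbs : ℝ) := by
    have h2 : (q : ℝ) = (q.num : ℝ) / (q.den : ℝ) := by
      conv_lhs => rw [← Rat.num_div_den q]
      push_cast
      rfl
    have h3 : (1 : ℝ) ≤ q.den := by exact_mod_cast q.den_pos
    rw [h2, abs_div, abs_of_pos (lt_of_lt_of_le one_pos h3)]
    have h4 : |(q.num : ℝ)| = (q.num.natAbs : ℝ) := by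
      rw [Nat.cast_natAbs, Int.cast_abs]
    rw [h4]
    exact div_le_self (Nat.cast_nonneg _) h3
  have h2 : q.num.natAbs + 1 ≤ 2 ^ cbits q := by
    have := Nat.lt_size_self q.num.natAbs
    calc q.num.natAbs + 1 ≤ 2 ^ Nat.size q.num.natAbs := this
      _ ≤ 2 ^ cbits q := Nat.pow_le_pow_right (by norm_num) (by unfold cbits; omega)
  have h3 : (q.num.natAbs : ℝ) + 1 ≤ 2 ^ cbits q := by exact_mod_cast h2
  linarith

theorem den_le_cbits (q : ℚ) : (q.den : ℝ) ≤ 2 ^ cbits q := by
  have := Nat.lt_size_self q.den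
  have h2 : q.den ≤ 2 ^ cbits q := this.le.trans
    (Nat.pow_le_pow_right (by norm_num) (by unfold cbits; omega))
  exact_mod_cast h2

theorem two_le_cbits {q : ℚ} (h : q ≠ 0) : 2 ≤ cbits q := by
  have h1 : 0 < Nat.size q.num.natAbs := Nat.size_pos.2 (by
    have := Rat.num_ne_zero.2 h; omega)
  have h2 : 0 < Nat.size q.den := Nat.size_pos.2 q.den_pos
  unfold cbits; omega

theorem sum_two_pow {ι : Type*} (s : Finset ι) (f : ι → ℕ) :
    ∑ i ∈ s, ((2 : ℝ) ^ f i - 1) ≤ 2 ^ (∑ i ∈ s, f i) - 1 := by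
  classical
  induction s using Finset.induction_on with
  | empty => simp
  | insert a s ha ih =>
    rw [Finset.sum_insert ha, Finset.sum_insert ha, pow_add]
    have h1 : (1 : ℝ) ≤ 2 ^ f a := one_le_pow₀ (by norm_num)
    have h2 : (1 : ℝ) ≤ 2 ^ (∑ i ∈ s, f i) := one_le_pow₀ (by norm_num)
    nlinarith

theorem N1_le (p : Pol V) : N1 p ≤ 2 ^ pbits p - 1 := by
  unfold N1 pbits
  exact (Finset.sum_le_sum fun m _ => abs_le_cbits _).trans (sum_two_pow _ _)

end Pool.Agent.T9h71.MB
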